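import Mathlib
import Pool.Graph.R_pool_sql_team_seeded_3997aac3.Q239.MN.Core

set_option autoImplicit false

/-!
# Matchings of divisors in which residues determine the exponents

The matrix of the products of Lagrange basis functions on `∏ b i` consecutive terms of a progression
is nonsingular (it is a Vandermonde matrix times an invertible one).  A nonzero term of its
determinant is a bijection for which the residues `r i t` modulo `m i` determine the coordinate.
-/

namespace Pool.Agent.Results.MP_0a29ca_nt.PrescribedResidues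

open Finset

/-- There is a coprime matching from `A` to `B`: a bijection `ψ : A → B` with
`gcd(x, ψ(x)) = 1` for every `x ∈ A`. -/
def HasCoprimeMatching (A B : Finset ℕ) : Prop :=
  ∃ ψ : ℕ → ℕ, Set.BijOn ψ (A : Set ℕ) (B : Set ℕ) ∧ ∀ x ∈ A, Nat.gcd x (ψ x) = 1

/-- The set `{a, a + d, ..., a + (k-1) d}`. -/
def progression (a d k : ℕ) : Finset ℕ := (Finset.range k).image (fun j => a + j * d)

/-- `n` is strongly matchable: for all integers `a, d ≥ 1` with `gcd(a,d) = 1` there is a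
coprime matching from the set of divisors of `n` to the progression with first term `a`,
difference `d` and length the number of divisors of `n`. -/
def StronglyMatchable (n : ℕ) : Prop :=
  ∀ a d : ℕ, 1 ≤ a → 1 ≤ d → Nat.gcd a d = 1 →
    HasCoprimeMatching n.divisors (progression a d n.divisors.card)

/-- `n` is an M-number: a positive integer with `p^p ∤ n` for every prime `p`. -/
def MNumber (n : ℕ) : Prop := 0 < n ∧ ∀ p : ℕ, p.Prime → ¬ p ^ p ∣ n

/-- a monomial in the Lagrange basis -/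
lemma mono {b : ℕ} {ρ : Fin b → ℂ} (hρ : Function.Injective ρ) (g : Fin b) (z : ℂ) :
    z ^ (g : ℕ) = ∑ t, ρ t ^ (g : ℕ) * (Lagrange.basis univ ρ t).eval z := by
  have h := Lagrange.eq_interpolate (s := (univ : Finset (Fin b))) (v := ρ)
    (f := (Polynomial.X : Polynomial ℂ) ^ (g : ℕ)) (hρ.injOn) (by
      rw [Polynomial.degree_X_pow, card_univ, Fintype.card_fin]
      exact_mod_cast g.2)
  have h2 := congrArg (Polynomial.eval z) h
  rw [Lagrange.interpolate_apply, Polynomial.eval_finsetSum] at h2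
  simpa using h2

variable {ι : Type*} [Fintype ι] [DecidableEq ι]

/-- The core lemma. -/
theorem assignC {m b : ι → ℕ} (hm : Pairwise (fun i j => Nat.Coprime (m i) (m j)))
    (hbm : ∀ i, b i ≤ m i) {θ c : ι → ℂ}
    (hθ : ∀ i, IsPrimitiveRoot (θ i) (m i)) (hc : ∀ i, c i ≠ 0)
    (ρ : ∀ i, Fin (b i) → ℂ) (hρ : ∀ i, Function.Injective (ρ i)) {L : ℕ}
    (hL : L = ∏ i, b i) :
    ∃ σ : Fin L ≃ (∀ i, Fin (b i)), ∀ (j : Fin L) (i : ι) (t : Fin (b i)),
      c i * θ i ^ (j : ℕ) = ρ i t → (σ j) i = t := by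
  classical
  have hcard : Fintype.card (∀ i, Fin (b i)) = L := by
    rw [Fintype.card_pi, hL]
    simp
  let e : Fin L ≃ (∀ i, Fin (b i)) := (Fintype.equivFinOfCardEq hcard).symm
  let Mg : Fin L → (∀ i, Fin (b i)) → ℂ := fun j g =>
    ∏ i, (Lagrange.basis univ (ρ i) (g i)).eval (c i * θ i ^ (j : ℕ))
  let M : Matrix (Fin L) (Fin L) ℂ := fun j k => Mg j (e k)
  -- the expansion of the monomials
  have hexp : ∀ g : (∀ i, Fin (b i)), ∃ w : Fin L → ℂ, ∀ j : Fin L,
      ∏ i, (c i * θ i ^ (j : ℕ)) ^ (g i : ℕ) = ∑ k, w k * M j k := by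
    intro g
    refine ⟨fun k => ∏ i, ρ i (e k i) ^ (g i : ℕ), fun j => ?_⟩
    calc ∏ i, (c i * θ i ^ (j : ℕ)) ^ (g i : ℕ)
        = ∏ i, ∑ t, ρ i t ^ (g i : ℕ) * (Lagrange.basis univ (ρ i) t).eval (c i * θ i ^ (j : ℕ)) :=
          Finset.prod_congr rfl fun i _ => mono (hρ i) (g i) _
      _ = ∑ h : (∀ i, Fin (b i)), ∏ i, (ρ i (h i) ^ (g i : ℕ) *
            (Lagrange.basis univ (ρ i) (h i)).eval (c i * θ i ^ (j : ℕ))) := by
          rw [Finset.prod_univ_sum, Fintype.piFinset_univ]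
      _ = ∑ h : (∀ i, Fin (b i)), (∏ i, ρ i (h i) ^ (g i : ℕ)) * Mg j h :=
          Finset.sum_congr rfl fun h _ => Finset.prod_mul_distrib
      _ = ∑ k, (∏ i, ρ i (e k i) ^ (g i : ℕ)) * M j k :=
          (Equiv.sum_comp e (fun h => (∏ i, ρ i (h i) ^ (g i : ℕ)) * Mg j h)).symm
  -- the determinant is not zero
  have hdet : M.det ≠ 0 := by
    intro h0
    obtain ⟨v, hv, hv0⟩ := Matrix.exists_vecMul_eq_zero_iff.2 h0
    apply hv
    let ω : Fin L → ℂ := fun k => ∏ i, θ i ^ ((e k) i : ℕ)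
    have hω : Function.Injective ω :=
      (Pool.Agent.Q239.MN.omega_injective hm hbm hθ).comp e.injective
    have hvd : (Matrix.vandermonde ω).det ≠ 0 := Matrix.det_vandermonde_ne_zero_iff.2 hω
    apply Matrix.eq_zero_of_mulVec_eq_zero hvd
    funext k
    obtain ⟨w, hw⟩ := hexp (e k)
    have h1 : ∑ j, v j * ∏ i, (c i * θ i ^ (j : ℕ)) ^ ((e k) i : ℕ) = 0 := by
      have h2 : ∀ l, ∑ j, v j * M j l = 0 := by
        intro l
        have := congrFun hv0 l
        simpa [Matrix.vecMul, dotProduct] using this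
      calc ∑ j, v j * ∏ i, (c i * θ i ^ (j : ℕ)) ^ ((e k) i : ℕ)
          = ∑ j, v j * ∑ l, w l * M j l := by
            apply Finset.sum_congr rfl
            intro j _
            rw [hw j]
        _ = ∑ j, ∑ l, w l * (v j * M j l) := by
            apply Finset.sum_congr rfl
            intro j _
            rw [Finset.mul_sum]
            apply Finset.sum_congr rfl
            intro l _
            ring
        _ = ∑ l, w l * ∑ j, v j * M j l := by
            rw [Finset.sum_comm]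
            apply Finset.sum_congr rfl
            intro l _
            rw [Finset.mul_sum]
        _ = 0 := by simp [h2]
    have h3 : ∀ j : Fin L, ∏ i, (c i * θ i ^ (j : ℕ)) ^ ((e k) i : ℕ)
        = (∏ i, c i ^ ((e k) i : ℕ)) * ω k ^ (j : ℕ) := by
      intro j
      show _ = _ * (∏ i, θ i ^ ((e k) i : ℕ)) ^ (j : ℕ)
      rw [← Finset.prod_pow, ← Finset.prod_mul_distrib]
      apply Finset.prod_congr rfl
      intro i _
      rw [mul_pow, ← pow_mul, ← pow_mul, mul_comm (j : ℕ)]
    have hC : (∏ i, c i ^ ((e k) i : ℕ)) ≠ 0 :=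
      Finset.prod_ne_zero_iff.2 (fun i _ => pow_ne_zero _ (hc i))
    have h4 : (∏ i, c i ^ ((e k) i : ℕ)) * ∑ j : Fin L, ω k ^ (j : ℕ) * v j = 0 := by
      rw [← h1, Finset.mul_sum]
      apply Finset.sum_congr rfl
      intro j _
      rw [h3 j]
      ring
    have h5 : ∑ j : Fin L, ω k ^ (j : ℕ) * v j = 0 := by
      rcases mul_eq_zero.1 h4 with h | h
      · exact absurd h hC
      · exact h
    simpa [Matrix.mulVec, dotProduct, Matrix.vandermonde_apply] using h5
  -- a nonzero term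
  obtain ⟨τ, hτ⟩ : ∃ τ : Equiv.Perm (Fin L), ∏ k, M (τ k) k ≠ 0 := by
    by_contra hcon
    push Not at hcon
    apply hdet
    rw [Matrix.det_apply]
    apply Finset.sum_eq_zero
    intro τ _
    rw [hcon τ, smul_zero]
  refine ⟨τ.symm.trans e, ?_⟩
  intro j i t hji
  have h1 : M (τ (τ.symm j)) (τ.symm j) ≠ 0 :=
    Finset.prod_ne_zero_iff.1 hτ (τ.symm j) (mem_univ _)
  rw [Equiv.apply_symm_apply] at h1
  have h2 : (Lagrange.basis univ (ρ i) ((e (τ.symm j)) i)).eval (c i * θ i ^ (j : ℕ)) ≠ 0 :=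
    Finset.prod_ne_zero_iff.1 h1 i (mem_univ _)
  rw [hji] at h2
  by_contra hne
  exact h2 (Lagrange.eval_basis_of_ne (s := univ) (v := ρ i) (i := (e (τ.symm j)) i) (j := t) hne
    (mem_univ _))

/-- the value of the standard character at an integer -/
noncomputable def chi (m : ℕ) (x : ℤ) : ℂ := (Complex.exp (2 * Real.pi * Complex.I / m)) ^ x

lemma chi_eq_iff {m : ℕ} (hm : m ≠ 0) (x y : ℤ) : chi m x = chi m y ↔ x ≡ y [ZMOD m] := by
  have h := Complex.isPrimitiveRoot_exp m hm
  have h0 : Complex.exp (2 * Real.pi * Complex.I / m) ≠ 0 := Complex.exp_ne_zero _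
  unfold chi
  rw [← div_eq_one_iff_eq (zpow_ne_zero _ h0), ← zpow_sub₀ h0, h.zpow_eq_one_iff_dvd,
    Int.modEq_comm, Int.modEq_iff_dvd]

lemma chi_ne_zero (m : ℕ) (x : ℤ) : chi m x ≠ 0 := zpow_ne_zero _ (Complex.exp_ne_zero _)

lemma chi_prim {m : ℕ} (hm : m ≠ 0) {d : ℤ} (hd : IsCoprime d (m : ℤ)) : IsPrimitiveRoot (chi m d) m :=
  (Complex.isPrimitiveRoot_exp m hm).zpow_of_gcd_eq_one d (Int.isCoprime_iff_gcd_eq_one.1 hd)

lemma chi_add_mul (m : ℕ) (a d : ℤ) (j : ℕ) : chi m a * chi m d ^ j = chi m (a + j * d) := by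
  unfold chi
  rw [zpow_add₀ (Complex.exp_ne_zero _), ← zpow_natCast, ← zpow_mul, mul_comm (j : ℤ)]

lemma le_of_incongruent {b m : ℕ} (hm : m ≠ 0) {r : Fin b → ℤ}
    (hr : ∀ s t, s ≠ t → ¬ r s ≡ r t [ZMOD m]) : b ≤ m := by
  have : NeZero m := ⟨hm⟩
  have hinj : Function.Injective fun t => ((r t : ℤ) : ZMod m) := by
    intro s t hst
    by_contra hne
    exact hr s t hne ((ZMod.intCast_eq_intCast_iff _ _ _).1 hst)
  have := Fintype.card_le_of_injective _ hinj
  simpa [ZMod.card] using this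

/-- **Matchings of divisors with prescribed residues.**

(1) (A partial Chinese remainder theorem.)  Let `m_1, ..., m_k` be pairwise coprime and let
`r_(i,0), ..., r_(i,b_i - 1)` be pairwise incongruent modulo `m_i`.  Then for every progression
`a, a + d, ..., a + (L-1) d`, `L = b_1 ... b_k`, with `d` coprime to all `m_i`, there is a bijection `σ`
of it with the set of vectors `(t_1, ..., t_k)`, `0 ≤ t_i < b_i`, such that a term which is congruent to
`r_(i,t)` modulo `m_i` has `i`-th coordinate `t`.  (For `b_i = m_i` this is the Chinese remainder theorem.)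
(2) Let `n ≥ 1`, and for each prime `p ∣ n` let `r_p(0), ..., r_p(v_p(n))` be pairwise incongruent modulo
`p` (such residues exist exactly if `n` is an M-number).  Then for every coprime progression of length
`τ(n)` there is a bijection `ψ` from the divisors of `n` to it with `v_p(x) = e` whenever `p ∤ d`
and `ψ(x) ≡ r_p(e)` modulo `p`; it is a coprime matching if all `r_p(0)` are `0`.
(3) (the question) Every M-number is strongly matchable. -/
theorem result :
    (∀ (k : ℕ) (m b : Fin k → ℕ), (∀ i, 0 < m i) →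
      Pairwise (fun i j => Nat.Coprime (m i) (m j)) →
      ∀ r : (i : Fin k) → Fin (b i) → ℤ, (∀ i s t, s ≠ t → ¬ r i s ≡ r i t [ZMOD m i]) →
      ∀ a d : ℤ, (∀ i, IsCoprime d (m i : ℤ)) →
        ∃ σ : Fin (∏ i, b i) ≃ ((i : Fin k) → Fin (b i)), ∀ (j : Fin (∏ i, b i)) (i : Fin k) (t : Fin (b i)),
          a + (j : ℕ) * d ≡ r i t [ZMOD m i] → σ j i = t) ∧
    (∀ n : ℕ, 0 < n → ∀ r : ℕ → ℕ → ℕ,
      (∀ p : ℕ, p.Prime → p ∣ n → ∀ s t : ℕ, s ≤ n.factorization p → t ≤ n.factorization p → s ≠ t →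
        ¬ r p s ≡ r p t [MOD p]) →
      ∀ a d : ℕ, 1 ≤ a → 1 ≤ d → Nat.gcd a d = 1 →
        ∃ ψ : ℕ → ℕ,
          Set.BijOn ψ (n.divisors : Set ℕ) (progression a d n.divisors.card : Set ℕ) ∧
          (∀ x ∈ n.divisors, ∀ p : ℕ, p.Prime → p ∣ n → ¬ p ∣ d →
            ∀ e : ℕ, e ≤ n.factorization p → ψ x ≡ r p e [MOD p] → x.factorization p = e) ∧
          ((∀ p : ℕ, p.Prime → p ∣ n → r p 0 = 0) → ∀ x ∈ n.divisors, Nat.gcd x (ψ x) = 1)) ∧
    (∀ n : ℕ, MNumber n → StronglyMatchable n) := by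
  classical
  have main : ∀ n : ℕ, 0 < n → ∀ r : ℕ → ℕ → ℕ,
      (∀ p : ℕ, p.Prime → p ∣ n → ∀ s t : ℕ, s ≤ n.factorization p → t ≤ n.factorization p → s ≠ t →
        ¬ r p s ≡ r p t [MOD p]) →
      ∀ a d : ℕ, 1 ≤ a → 1 ≤ d → Nat.gcd a d = 1 →
        ∃ ψ : ℕ → ℕ,
          Set.BijOn ψ (n.divisors : Set ℕ) (progression a d n.divisors.card : Set ℕ) ∧
          (∀ x ∈ n.divisors, ∀ p : ℕ, p.Prime → p ∣ n → ¬ p ∣ d →
            ∀ e : ℕ, e ≤ n.factorization p → ψ x ≡ r p e [MOD p] → x.factorization p = e) ∧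
          ((∀ p : ℕ, p.Prime → p ∣ n → r p 0 = 0) → ∀ x ∈ n.divisors, Nat.gcd x (ψ x) = 1) := by
    intro n hn r hr a d ha hd had
    have hn0 : n ≠ 0 := hn.ne'
    let m : n.primeFactors → ℕ := fun p => (p : ℕ)
    let b : n.primeFactors → ℕ := fun p => n.factorization (p : ℕ) + 1
    have hprime : ∀ p : n.primeFactors, Nat.Prime (p : ℕ) := fun p => Nat.prime_of_mem_primeFactors p.2
    have hdvd : ∀ p : n.primeFactors, (p : ℕ) ∣ n := fun p => Nat.dvd_of_mem_primeFactors p.2
    have hm : Pairwise (fun i j : n.primeFactors => Nat.Coprime (m i) (m j)) := by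
      intro i j hij
      exact (Nat.coprime_primes (hprime i) (hprime j)).2 (fun h => hij (Subtype.ext h))
    have hrr : ∀ (p : n.primeFactors) (s t : Fin (b p)), s ≠ t →
        ¬ ((r p s : ℕ) : ℤ) ≡ ((r p t : ℕ) : ℤ) [ZMOD (m p)] := by
      intro p s t hst h
      refine hr p (hprime p) (hdvd p) s t (Nat.lt_succ_iff.1 s.2) (Nat.lt_succ_iff.1 t.2)
        (fun h' => hst (Fin.ext h')) ?_
      exact Int.natCast_modEq_iff.1 h
    have hbm : ∀ i, b i ≤ m i := fun i => le_of_incongruent (hprime i).ne_zero (hrr i)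
    let θ : n.primeFactors → ℂ := fun p => if (p : ℕ) ∣ d then chi p 1 else chi p d
    let c : n.primeFactors → ℂ := fun p => if (p : ℕ) ∣ d then 1 else chi p a
    let ρ : (p : n.primeFactors) → Fin (b p) → ℂ := fun p t =>
      if (p : ℕ) ∣ d then chi p (t : ℕ) else chi p (r p t)
    have hθ : ∀ p, IsPrimitiveRoot (θ p) (m p) := by
      intro p
      by_cases hp : (p : ℕ) ∣ d
      · simp only [θ, hp, if_true]
        exact chi_prim (hprime p).ne_zero isCoprime_one_left
      · simp only [θ, hp, if_false]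
        exact chi_prim (hprime p).ne_zero (Nat.isCoprime_iff_coprime.2
          ((Nat.Prime.coprime_iff_not_dvd (hprime p)).2 hp).symm)
    have hc : ∀ p, c p ≠ 0 := by
      intro p
      by_cases hp : (p : ℕ) ∣ d
      · simp [c, hp]
      · simp only [c, hp, if_false]; exact chi_ne_zero _ _
    have hρ : ∀ p, Function.Injective (ρ p) := by
      intro p s t hst
      by_cases hp : (p : ℕ) ∣ d
      · simp only [ρ, hp, if_true] at hst
        have h1 := Int.natCast_modEq_iff.1 ((chi_eq_iff (hprime p).ne_zero _ _).1 hst)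
        have hs : (s : ℕ) < (p : ℕ) := lt_of_lt_of_le s.2 (hbm p)
        have ht : (t : ℕ) < (p : ℕ) := lt_of_lt_of_le t.2 (hbm p)
        exact Fin.ext (Nat.ModEq.eq_of_lt_of_lt h1 hs ht)
      · simp only [ρ, hp, if_false] at hst
        by_contra hne
        exact hrr p s t hne ((chi_eq_iff (hprime p).ne_zero _ _).1 hst)
    have hL : n.divisors.card = ∏ i, b i := by
      rw [Nat.card_divisors hn0]
      exact (Finset.prod_coe_sort n.primeFactors (fun p => n.factorization p + 1)).symm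
    obtain ⟨σ, hσ⟩ := assignC hm hbm hθ hc ρ hρ hL
    have hdiv : ∀ (j : Fin n.divisors.card) (p : n.primeFactors) (t : Fin (b p)), ¬ (p : ℕ) ∣ d →
        a + (j : ℕ) * d ≡ r p t [MOD (p : ℕ)] → (σ j) p = t := by
      intro j p t hp h
      apply hσ
      simp only [c, θ, ρ, hp, if_false]
      rw [chi_add_mul, chi_eq_iff (hprime p).ne_zero]
      have := Int.natCast_modEq_iff.2 h
      push_cast at this
      exact this
    -- exponents of a divisor
    let g : ℕ → (∀ i : n.primeFactors, Fin (b i)) := fun x i =>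
      ⟨min (x.factorization (i : ℕ)) (n.factorization (i : ℕ)),
        Nat.lt_succ_of_le (min_le_right _ _)⟩
    have hgval : ∀ x ∈ n.divisors, ∀ i : n.primeFactors, ((g x) i : ℕ) = x.factorization (i : ℕ) := by
      intro x hx i
      have hxn : x ∣ n := Nat.dvd_of_mem_divisors hx
      have hx0 : x ≠ 0 := ne_zero_of_dvd_ne_zero hn0 hxn
      show min _ _ = _
      exact min_eq_left ((Nat.factorization_le_iff_dvd hx0 hn0).2 hxn _)
    have hginj : ∀ x ∈ n.divisors, ∀ y ∈ n.divisors, g x = g y → x = y := by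
      intro x hx y hy hxy
      have hxn : x ∣ n := Nat.dvd_of_mem_divisors hx
      have hyn : y ∣ n := Nat.dvd_of_mem_divisors hy
      have hx0 : x ≠ 0 := ne_zero_of_dvd_ne_zero hn0 hxn
      have hy0 : y ≠ 0 := ne_zero_of_dvd_ne_zero hn0 hyn
      apply Nat.eq_of_factorization_eq hx0 hy0
      intro p
      by_cases hp : p ∈ n.primeFactors
      · rw [← hgval x hx ⟨p, hp⟩, ← hgval y hy ⟨p, hp⟩, hxy]
      · have h0 : n.factorization p = 0 := by
          rw [← Finsupp.notMem_support_iff, Nat.support_factorization]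
          exact hp
        have h1 := (Nat.factorization_le_iff_dvd hx0 hn0).2 hxn p
        have h2 := (Nat.factorization_le_iff_dvd hy0 hn0).2 hyn p
        omega
    let ψ : ℕ → ℕ := fun x => a + ((σ.symm (g x) : Fin _) : ℕ) * d
    have hmaps : ∀ x, ψ x ∈ progression a d n.divisors.card := by
      intro x
      exact Finset.mem_image.2 ⟨_, Finset.mem_range.2 (σ.symm (g x)).2, rfl⟩
    have hinj : Set.InjOn ψ (n.divisors : Set ℕ) := by
      intro x hx y hy hxy
      have h1 : a + ((σ.symm (g x) : Fin _) : ℕ) * d = a + ((σ.symm (g y) : Fin _) : ℕ) * d := hxy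
      have h2 : ((σ.symm (g x) : Fin _) : ℕ) = ((σ.symm (g y) : Fin _) : ℕ) :=
        Nat.eq_of_mul_eq_mul_right (by omega) (Nat.add_left_cancel h1)
      have h3 : g x = g y := σ.symm.injective (Fin.ext h2)
      exact hginj x hx y hy h3
    have hval : ∀ x ∈ n.divisors, ∀ p : ℕ, p.Prime → p ∣ n → ¬ p ∣ d →
        ∀ e : ℕ, e ≤ n.factorization p → ψ x ≡ r p e [MOD p] → x.factorization p = e := by
      intro x hx p hp hpn hpd e he hcong
      have hpm : p ∈ n.primeFactors := Nat.mem_primeFactors.2 ⟨hp, hpn, hn0⟩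
      have h1 := hdiv (σ.symm (g x)) ⟨p, hpm⟩ ⟨e, Nat.lt_succ_of_le he⟩ hpd hcong
      rw [Equiv.apply_symm_apply] at h1
      rw [← hgval x hx ⟨p, hpm⟩, h1]
    refine ⟨ψ, ⟨fun x _ => hmaps x, hinj, ?_⟩, hval, ?_⟩
    · apply Finset.surjOn_of_injOn_of_card_le ψ (fun x _ => hmaps x) hinj
      exact le_trans Finset.card_image_le (by simp)
    · intro hr0 x hx
      have hxn : x ∣ n := Nat.dvd_of_mem_divisors hx
      have hx0 : x ≠ 0 := ne_zero_of_dvd_ne_zero hn0 hxn
      by_contra hcon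
      obtain ⟨p, hp, hpg⟩ := Nat.exists_prime_and_dvd hcon
      have hpx : p ∣ x := dvd_trans hpg (Nat.gcd_dvd_left _ _)
      have hpy : p ∣ ψ x := dvd_trans hpg (Nat.gcd_dvd_right _ _)
      have hpn : p ∣ n := dvd_trans hpx hxn
      have hpd : ¬ p ∣ d := by
        intro h
        have h1 : p ∣ a := (Nat.dvd_add_left (Dvd.dvd.mul_left h _)).1 hpy
        have h2 : p ∣ Nat.gcd a d := Nat.dvd_gcd h1 h
        rw [had] at h2
        exact hp.one_lt.ne' (Nat.dvd_one.1 h2)
      have h1 := hval x hx p hp hpn hpd 0 (Nat.zero_le _) (by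
        rw [hr0 p hp hpn]
        exact (Nat.modEq_zero_iff_dvd).2 hpy)
      have h2 : 0 < x.factorization p := hp.factorization_pos_of_dvd hx0 hpx
      omega
  refine ⟨?_, main, ?_⟩
  · intro k m b hm0 hm r hr a d hd
    have hbm : ∀ i, b i ≤ m i := fun i => le_of_incongruent (hm0 i).ne' (hr i)
    obtain ⟨σ, hσ⟩ := assignC (θ := fun i => chi (m i) d) (c := fun i => chi (m i) a) hm hbm
      (fun i => chi_prim (hm0 i).ne' (hd i)) (fun i => chi_ne_zero _ _)
      (fun i t => chi (m i) (r i t)) (by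
        intro i s t hst
        by_contra hne
        exact hr i s t hne ((chi_eq_iff (hm0 i).ne' _ _).1 hst)) rfl
    refine ⟨σ, fun j i t h => hσ j i t ?_⟩
    rw [chi_add_mul, chi_eq_iff (hm0 i).ne']
    exact h
  · rintro n ⟨hn, hM⟩ a d ha hd had
    obtain ⟨ψ, h1, _, h3⟩ := main n hn (fun _ e => e) (by
      intro p hp hpn s t hs ht hst h
      have hlt : n.factorization p < p := by
        by_contra hcon
        push Not at hcon
        exact hM p hp ((hp.pow_dvd_iff_le_factorization hn.ne').2 hcon)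
      exact hst (Nat.ModEq.eq_of_lt_of_lt h (by omega) (by omega))) a d ha hd had
    exact ⟨ψ, h1, h3 (fun _ _ _ => rfl)⟩

end Pool.Agent.Results.MP_0a29ca_nt.PrescribedResidues
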